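import Pool.Agent.Y560.TF.GeS

/-!
Project TF (helper560): comparability of cuts.
-/

set_option autoImplicit false

namespace Pool.Agent.Y888.TF

open Pool.Agent.Y560.TF.Ge

section

variable {Γ X : Type} [Group Γ] [PartialOrder X] [MulAction Γ X] [Tr Γ X]

theorem incomp {x x' z z' w : X} (Γ : Type) [Group Γ] [MulAction Γ X] [Tr Γ X]
    (hz : z ≤ x) (hzn : ¬ z ≤ x') (hz' : z' ≤ x') (hzn' : ¬ z' ≤ x) (h : z ≤ w)
    (h' : z' ≤ w) : False := by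
  rcases cmp Γ h h' with h1 | h1
  · exact hzn (h1.trans hz')
  · exact hzn' (h1.trans hz)

theorem cut_one {u x x' : X} (h : RL Γ u x x') :
    (∀ r, r ≤ x → DD Γ u r → r ≤ x') ∨ ∀ r, r ≤ x' → DD Γ u r → r ≤ x := by
  by_contra hcon
  push Not at hcon
  obtain ⟨⟨z, hz, ⟨η, hη⟩, hzn⟩, z', hz', ⟨η', hη'⟩, hzn'⟩ := hcon
  have h1 : ¬ z ≤ η' • u := fun h1 => incomp Γ hz hzn hz' hzn' h1 hη'
  obtain ⟨r', hr1, hr2, hr3⟩ := (h.d η η').1 ⟨z, hz, hη, h1⟩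
  rcases cmp Γ hr1 hz' with h2 | h2
  · exact hr3 (h2.trans hη')
  · exact incomp Γ hz hzn hz' hzn' hη (h2.trans hr2)

theorem cut_below {u x x' z : X} (h : RL Γ u x x') (hz : z ≤ x) (hd : DD Γ u z)
    (hzn : ¬ z ≤ x') : ∀ r, r ≤ x' → DD Γ u r → r ≤ z := by
  intro r hr hrd
  have h1 : ∀ r, r ≤ x' → DD Γ u r → r ≤ x := by
    rcases cut_one h with h1 | h1
    · exact absurd (h1 z hz hd) hzn
    · exact h1
  rcases cmp Γ (h1 r hr hrd) hz with h2 | h2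
  · exact h2
  · exact absurd (h2.trans hr) hzn

theorem cut_RL {u x x' z : X} (h : RL Γ u x x') (hz : z ≤ x) (hd : DD Γ u z)
    (hzn : ¬ z ≤ x') : RL Γ u z x := by
  have hb := cut_below h hz hd hzn
  refine ⟨fun γ => ⟨fun h1 => h1.trans hz, fun h1 => hb _ ((h.a γ).1 h1) ⟨γ, le_rfl⟩⟩,
    fun γ => ⟨fun ⟨r, h1, h2⟩ => ⟨r, h1.trans hz, h2⟩, fun h1 => ?_⟩,
    fun γ δ => ⟨fun ⟨r, h1, h2⟩ => ⟨r, h1.trans hz, h2⟩, fun h1 => ?_⟩⟩
  · obtain ⟨r, h2, h3⟩ := (h.e γ).1 h1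
    exact ⟨r, hb r h2 ⟨γ, h3⟩, h3⟩
  · obtain ⟨r, h2, h3, h4⟩ := (h.d γ δ).1 h1
    exact ⟨r, hb r h2 ⟨γ, h3⟩, h3, h4⟩

theorem cut_b {u x x' z z' : X} (h : RL Γ u x x') (hz : z ≤ x) (hd : DD Γ u z)
    (hzn : ¬ z ≤ x') (hz' : z' ≤ x) (hd' : DD Γ u z') {δ : Γ} (hδ : z ≤ δ • u) :
    z' ≤ δ • u := by
  by_contra hcon
  obtain ⟨η, hη⟩ := hd'
  obtain ⟨r, h2, h3, h4⟩ := (h.d η δ).1 ⟨z', hz', hη, hcon⟩
  exact h4 ((cut_below h hz hd hzn r h2 ⟨η, h3⟩).trans hδ)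

end

theorem t_CUT : S_CUT := by
  intro Γ X _ _ _ _ u x x' h
  refine ⟨cut_one h, fun z hz hd hzn => ⟨cut_RL h hz hd hzn, fun z' hz' hd' hzn' => ?_⟩⟩
  exact ⟨(cut_RL h hz hd hzn).trans (cut_RL h hz' hd' hzn').symm,
    fun δ => ⟨fun h1 => cut_b h hz hd hzn hz' hd' h1, fun h1 => cut_b h hz' hd' hzn' hz hd h1⟩⟩

theorem t_CC (h : S_CUT) (h' : S_TYP) : S_CC := by
  intro Γ X _ _ _ _ u x x' r hx' hs hrd hr hrn
  by_contra hno
  obtain ⟨-, t2, t3, -, -, t6⟩ := h' Γ X u x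
  by_cases hx : DD Γ u x
  · rw [t2 hx hno] at hx'
    obtain ⟨γ, hγ⟩ := hx'
    refine hno ⟨x, hx, t6 1 γ x hx ?_ ?_⟩
    · rw [one_smul, hγ]; exact hs
    · rw [one_smul, hγ]
      intro he
      exact hrn (he ▸ hr)
  · rw [t3 hx hno] at hx'
    obtain ⟨γ, c, hc1, hc2, hc3⟩ := hx'
    have key : ∀ ρ, DD Γ u ρ → (ρ ≤ x' ↔ ρ ≤ γ • x) := by
      intro ρ hρ
      constructor
      · intro h1
        rcases cmp Γ h1 hc2 with h2 | h2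
        · exact h2.trans hc1
        · exact absurd (hρ.le h2) hc3
      · intro h1
        rcases cmp Γ h1 hc1 with h2 | h2
        · exact h2.trans hc2
        · exact absurd (hρ.le h2) hc3
    have hsl : SL Γ u x' (γ • x) := by
      refine ⟨⟨fun δ => key _ ⟨δ, le_rfl⟩,
        fun δ => exists_congr fun r => ?_, fun δ ε => exists_congr fun r => ?_⟩, fun δ => ?_⟩
      · exact ⟨fun h1 => ⟨(key r ⟨δ, h1.2⟩).1 h1.1, h1.2⟩,
          fun h1 => ⟨(key r ⟨δ, h1.2⟩).2 h1.1, h1.2⟩⟩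
      · exact ⟨fun h1 => ⟨(key r ⟨δ, h1.2.1⟩).1 h1.1, h1.2⟩,
          fun h1 => ⟨(key r ⟨δ, h1.2.1⟩).2 h1.1, h1.2⟩⟩
      · constructor
        · intro h1
          exact absurd (hs.dd.2 ⟨δ, h1⟩) hx
        · intro h1
          exact absurd (DD_smul.1 ⟨δ, h1⟩) hx
    have hsub : ∀ ρ, ρ ≤ x' → DD Γ u ρ → ρ ≤ x := by
      rcases (h Γ X u x x' hs.toRL).1 with h1 | h1
      · exact absurd (h1 r hr hrd) hrn
      · exact h1
    have h1 : γ • r ≤ x' := (key _ (hrd.smul γ)).2 (sle.2 hr)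
    have h2 : γ • r ≤ x := hsub _ h1 (hrd.smul γ)
    have h3 : ¬ γ • r ≤ γ • x' := fun h3 => hrn (sle.1 h3)
    have h4 : ¬ r ≤ γ • x' := by
      intro h4
      have h5 : γ⁻¹ • r ≤ x' := sle_right.1 h4
      have h6 : γ⁻¹ • r ≤ x := hsub _ h5 (hrd.smul _)
      exact hrn ((key r hrd).2 (sle_right.2 h6))
    have h5 : SL Γ u x (γ • x') := (hs.trans hsl).trans (hs.smul γ)
    have h6 : SL Γ u r (γ • r) :=
      ((h Γ X u x (γ • x') h5.toRL).2 r hr hrd h4).2 (γ • r) h2 (hrd.smul γ) h3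
    have h7 : IN Γ u r (γ • x) := by
      refine ⟨γ, 1, ?_, ?_, ?_⟩
      · rw [one_smul]; exact h6.symm
      · exact (key _ (hrd.smul γ)).1 h1
      · rw [one_smul]
        intro h8
        exact hrn ((key r hrd).2 h8)
    exact hno ⟨r, hrd, IN_smul.1 h7⟩

end Pool.Agent.Y888.TF
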