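import Pool.Agent.Y560.TF.Stm
import Pool.Agent.H565R2.FO2.USec

set_option autoImplicit false

/-! Project TF (helper560), jobs LBC and LABQ: countably many labels. -/

namespace Pool.Agent.Y888.TF

open Set MeasureTheory
open Pool.Agent.H899R2.VP (St Adj PIso BF IsoOn idOn inv comp zipSet)
open Pool.Agent.H533R2.VO (RS lift put OS Ic RIso Dich VC BlkV S_FINAL)
open Pool.Agent.H566P (ar R2 v2 a0 a1 lt ac co mk S_ACC S_MSG)
open Pool.Agent.Y560.TG (acc msg lt_mk ac_mk co_mk R2_ext piso_iff riso_iff riso_isoOn meas_lt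
  meas_ac meas_co meas_into cont_into piso_lt piso_ac piso_co piso_eq ex lt_ex ac_ex co_ex_even
  co_ex_odd piso_ex orb orb_ex Nm Off Sm Thin Few bf_trans0 bf_symm0 iso_trans0 iso_symm0
  iso_refl0 S_EXT S_GL S_MAT S_BP mat pick Se)
open Pool.Agent.Y560.TF

theorem t_LBC : S_LBC := by
  intro K hK few l hl hinv
  have hS : StandardBorelSpace K := hK.standardBorel
  have hU : {p | ∃ Y ∈ K, ∃ y z, l Y y z = p} =
      ⋃ i : ℕ × ℕ, Set.range (fun Y : K => l Y.1 i.1 i.2) := by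
    ext p
    simp only [Set.mem_ofPred_eq, mem_iUnion, mem_range, Prod.exists, Subtype.exists]
    constructor
    · rintro ⟨Y, hY, y, z, h⟩
      exact ⟨y, z, Y, hY, h⟩
    · rintro ⟨y, z, Y, hY, h⟩
      exact ⟨Y, hY, y, z, h⟩
  rw [hU]
  by_contra hunc
  obtain ⟨h, hcont, hh⟩ := Pool.Agent.H565R2.FO2.perfect_of_uncountable (Y := K) (X := R2)
    (fun Y => Y.1) measurable_subtype_coe (fun (i : ℕ × ℕ) (Y : K) => l Y.1 i.1 i.2)
    (fun i => (hl i.1 i.2).comp measurable_subtype_coe)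
    (fun Y Y' => RIso Y.1 Y'.1)
    (fun Y Y' hYY i => by
      obtain ⟨q, -, h2, h3, h4, h5⟩ := riso_isoOn.1 hYY
      obtain ⟨y', hy'⟩ := h4 i.1 (mem_univ _)
      obtain ⟨z', hz'⟩ := h4 i.2 (mem_univ _)
      refine ⟨(y', z'), hinv _ Y.2 _ Y'.2 _ _ _ _ ⟨q, ?_, h2, h3, h4, h5⟩⟩
      intro w hw
      rcases hw with rfl | rfl
      · exact hy'
      · exact hz') hunc
  apply few
  refine ⟨fun x => (h x).1, hcont, fun x => (h x).2, fun x y hxy => ?_⟩
  by_contra hne
  exact hh x y hne hxy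

theorem t_LABQ (hL : S_LBC) (hM : S_MQ) (hT : S_TRQ) : S_LABQ := by
  classical
  intro R γ hω hγ hfew
  have hlift : Measurable (lift : R2 → St ar) := measurable_const.prodMk measurable_id
  have hK : MeasurableSet {Y : R2 | BF (lift R) (lift Y) univ univ γ ∅} :=
    msg ar (lift R) univ R2 lift (fun _ => univ) hlift (fun z => by simp) γ hγ ∅
  have hc := hL {Y : R2 | BF (lift R) (lift Y) univ univ γ ∅} hK hfew
    (fun Y y z m => decide (Q Y y m z)) ?_ ?_
  · have hne : {p | ∃ Y ∈ {Y : R2 | BF (lift R) (lift Y) univ univ γ ∅}, ∃ y z,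
        (fun m => decide (Q Y y m z)) = p}.Nonempty :=
      ⟨_, R, (BF.refl (lift R) univ γ).subset (empty_subset _), 0, 0, rfl⟩
    obtain ⟨e, he⟩ := hc.exists_eq_range hne
    refine ⟨fun i m => e i m = true, fun Y hY y z => ?_⟩
    have h1 : (fun m => decide (Q Y y m z)) ∈ {p | ∃ Y ∈ {Y : R2 |
        BF (lift R) (lift Y) univ univ γ ∅}, ∃ y z, (fun m => decide (Q Y y m z)) = p} :=
      ⟨Y, hY, y, z, rfl⟩
    rw [he] at h1
    obtain ⟨i, hi⟩ := h1
    refine ⟨i, fun m => ?_⟩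
    show Q Y y m z ↔ e i m = true
    rw [hi]
    simp
  · intro y z
    rw [measurable_pi_iff]
    intro m
    apply measurable_to_bool
    have e : (fun Y : R2 => decide (Q Y y m z)) ⁻¹' {true} = {Y : R2 | Q Y y m z} := by
      ext Y
      simp
    show MeasurableSet ((fun Y : R2 => decide (Q Y y m z)) ⁻¹' {true})
    rw [e]
    exact hM.1 y m z
  · intro Y _ Y' _ y z y' z' hi
    funext m
    exact decide_eq_decide.2 (hT.1 Y Y' _ y y' z z' m (hi.bf 3) (Or.inl rfl) (Or.inr rfl))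

end Pool.Agent.Y888.TF
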